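import Pool.Agent.Lib.MP_3145b1_co.RK.Rank
import Pool.Agent.Lib.MP_3145b1_co.AG.Spec2
import Pool.Agent.Lib.MP_3145b1_co.RT.Ltf

/-!
# MP_3145b1_co: decision trees of rank `w - 2` are in the classes closed under the constructor `prog`
-/

set_option autoImplicit false

namespace Pool.Agent.MP3145b1.RK

open Finset Pool.Agent.MP3145b1 Pool.Agent.MP3145b1.RC Pool.Agent.MP3145b1.RD Pool.Agent.MP3145b1.RT
  Pool.Agent.MP3145b1.UM Pool.Agent.MP3145b1.AG

/-- closure of a class under read-once programs of width `w` -/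
def ProgCl (w : ℕ) {N : ℕ} (Cl : ((Fin N → Bool) → ℝ) → Prop) : Prop :=
  ∀ (P : ℕ → Finset (Fin N)) (u : ℕ → (Fin N → Bool) → ℝ), (∀ i j, i ≠ j → Disjoint (P i) (P j)) →
    (∀ i, Dp (P i) (u i)) → (∀ i, Cl (u i)) →
    ∀ (n : ℕ) (s : ℕ → Fin w → Bool → Fin w) (v : ℕ → Fin w → ℕ) (x0 : Fin w) (o : Fin w → Bool),
      ReadOnce s v n x0 →
      Cl (fun x => if o (run s v x0 (fun i => decide (u i x = -1)) n) then -1 else 1)

/-- a decision tree of rank at most `w - 2` which queries functions of disjoint sets of variables -/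
theorem tree_gate {w N : ℕ} {Cl : ((Fin N → Bool) → ℝ) → Prop} (hC : ProgCl w Cl)
    (P : ℕ → Finset (Fin N)) (u : ℕ → (Fin N → Bool) → ℝ) (hP : ∀ i j, i ≠ j → Disjoint (P i) (P j))
    (hd : ∀ i, Dp (P i) (u i)) (hu : ∀ i, Cl (u i)) (T : Tree ℕ) (hT : T.rank + 2 ≤ w) :
    Cl (fun x => if T.eval (fun i => decide (u i x = -1)) then -1 else 1) := by
  obtain ⟨n, s, v, x0, o, h1, h2⟩ := tree_prog w T hT
  have h3 := hC P u hP hd hu n s v x0 o h1
  have e : (fun x : Fin N → Bool => if T.eval (fun i => decide (u i x = -1)) then (-1 : ℝ) else 1) =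
      fun x => if o (run s v x0 (fun i => decide (u i x = -1)) n) then -1 else 1 := by
    funext x
    rw [h2]
  rw [e]
  exact h3

/-- a decision tree of rank at most `w - 2` over the variables -/
theorem tree_mem {w N : ℕ} {Cl : ((Fin N → Bool) → ℝ) → Prop} (hC : ProgCl w Cl)
    (hv : ∀ a : Fin N, Cl (fun x => if x a then -1 else 1))
    (hc : Cl (fun _ => if false = true then -1 else 1)) (T : Tree (Fin N)) (hT : T.rank + 2 ≤ w) :
    Cl (fun x => if T.eval x then -1 else 1) := by
  have h := tree_gate hC (fun i => if h : i < N then {⟨i, h⟩} else ∅) (Ltf_u N)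
    (by
      intro i j hij
      beta_reduce
      split_ifs with h1 h2
      · rw [Finset.disjoint_singleton]
        intro h
        exact hij (congrArg Fin.val h)
      · exact Finset.disjoint_empty_right _
      · exact Finset.disjoint_empty_left _
      · exact Finset.disjoint_empty_left _)
    (by
      intro i x y hxy
      unfold Ltf_u
      by_cases h1 : i < N
      · have e := hxy ⟨i, h1⟩ (by simp [h1])
        simp only [dif_pos h1, e]
      · simp only [dif_neg h1])
    (by
      intro i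
      unfold Ltf_u
      by_cases h1 : i < N
      · rw [dif_pos h1]
        exact hv _
      · rw [dif_neg h1]
        exact hc)
    (T.map Fin.val) (by rw [Tree.rank_map]; exact hT)
  have e : (fun x : Fin N → Bool => if (T.map Fin.val).eval (fun i => decide (Ltf_u N i x = -1)) then
      (-1 : ℝ) else 1) = fun x => if T.eval x then -1 else 1 := by
    funext x
    rw [Tree.eval_map]
    have e1 : (fun i : Fin N => decide (Ltf_u N i.val x = -1)) = x := by
      funext i
      simp only [Ltf_u, i.isLt, dif_pos, Fin.eta]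
      cases x i
      · norm_num
      · norm_num
    rw [e1]
  rw [← e]
  exact h

private theorem Cls_hh0 : hh 0 = 0 := by
  unfold hh
  exact Real.negMulLog_zero

private theorem Cls_hh1 : hh 1 = 0 := by
  unfold hh
  exact Real.negMulLog_one

/-- the coefficients of a constant -/
private theorem Cls_const (N : ℕ) (c : ℝ) :
    (∀ S : Finset (Fin N), S ≠ ∅ → coeff (fun _ : Fin N → Bool => c) S = 0) ∧
      coeff (fun _ : Fin N → Bool => c) ∅ = c := by
  refine ⟨?_, ?_⟩
  · intro S hS
    obtain ⟨i, hi⟩ := Finset.nonempty_iff_ne_empty.mpr hS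
    exact Q.coeff_zero _ i S hi (fun _ _ => rfl)
  · rw [Q.coeff_mean]
    have : (fun x : Fin N → Bool => c * sgn x ∅) = fun _ => c := by
      funext x
      simp [sgn]
    rw [this, Q.mean_const]

/-- the coefficients of a variable -/
private theorem Cls_var (N : ℕ) (a : Fin N) :
    coeff (fun x : Fin N → Bool => if x a then -1 else 1) {a} = 1 ∧
      ∀ S : Finset (Fin N), S ≠ {a} → coeff (fun x : Fin N → Bool => if x a then -1 else 1) S = 0 := by
  set f : (Fin N → Bool) → ℝ := fun x => if x a then -1 else 1 with hf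
  have hsg : ∀ x : Fin N → Bool, f x = sgn x {a} := by
    intro x
    simp [hf, sgn]
  have h1 : coeff f {a} = 1 := by
    rw [Q.coeff_mean]
    have : (fun x : Fin N → Bool => f x * sgn x {a}) = fun _ => (1 : ℝ) := by
      funext x
      rw [hsg, ← pow_two, sgn_sq]
    rw [this, Q.mean_const]
  have hpar : ∑ S : Finset (Fin N), coeff f S ^ 2 = 1 := by
    rw [Q.parseval]
    have : (fun x : Fin N → Bool => f x ^ 2) = fun _ => (1 : ℝ) := by
      funext x
      rw [hsg, sgn_sq]
    rw [this, Q.mean_const]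
  refine ⟨h1, ?_⟩
  intro S hS
  have h2 : coeff f S ^ 2 ≤ 0 := by
    have h3 : coeff f S ^ 2 + coeff f {a} ^ 2 ≤ ∑ S : Finset (Fin N), coeff f S ^ 2 := by
      rw [← Finset.sum_pair (f := fun S => coeff f S ^ 2) hS]
      exact Finset.sum_le_sum_of_subset_of_nonneg (Finset.subset_univ _)
        (fun _ _ _ => sq_nonneg _)
    rw [hpar, h1] at h3
    linarith
  exact pow_eq_zero_iff (two_ne_zero) |>.mp (le_antisymm h2 (sq_nonneg _))

private theorem Cls_var_inf (N : ℕ) (a : Fin N) :
    influence (fun x : Fin N → Bool => if x a then -1 else 1) = 1 := by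
  obtain ⟨h1, h0⟩ := Cls_var N a
  unfold influence
  rw [Finset.sum_eq_single ({a} : Finset (Fin N))]
  · rw [h1]
    simp
  · intro S _ hS
    rw [h0 S hS]
    simp
  · intro h
    exact absurd (Finset.mem_univ _) h

theorem Shp_var (K : ℝ) (N : ℕ) (a : Fin N) : Shp K (fun x : Fin N → Bool => if x a then -1 else 1) := by
  obtain ⟨h1, h0⟩ := Cls_var N a
  have h3 : coeff (fun x : Fin N → Bool => if x a then -1 else 1) ∅ = 0 := h0 ∅ (by
    intro h
    exact (Finset.singleton_ne_empty a) h.symm)
  have h4 : ∑ S ∈ (univ : Finset (Finset (Fin N))).erase ∅,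
      hh (coeff (fun x : Fin N → Bool => if x a then -1 else 1) S ^ 2) = 0 := by
    apply Finset.sum_eq_zero
    intro S _
    by_cases hS : S = {a}
    · rw [hS, h1]
      norm_num
      exact Cls_hh1
    · rw [h0 S hS]
      norm_num
      exact Cls_hh0
  unfold Shp
  rw [h4, Cls_var_inf, h3]
  norm_num

theorem Shp_const (K : ℝ) (N : ℕ) (c : ℝ) (hc : c = 1 ∨ c = -1) : Shp K (fun _ : Fin N → Bool => c) := by
  obtain ⟨h0, h1⟩ := Cls_const N c
  have h2 : influence (fun _ : Fin N → Bool => c) = 0 := by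
    unfold influence
    apply Finset.sum_eq_zero
    intro S _
    by_cases hS : S = ∅
    · subst hS
      simp
    · rw [h0 S hS]
      simp
  have h3 : c ^ 2 = 1 := by
    rcases hc with h | h <;> rw [h] <;> norm_num
  have h4 : ∑ S ∈ (univ : Finset (Finset (Fin N))).erase ∅,
      hh (coeff (fun _ : Fin N → Bool => c) S ^ 2) = 0 := by
    apply Finset.sum_eq_zero
    intro S hS
    rw [h0 S (Finset.ne_of_mem_erase hS)]
    norm_num
    exact Cls_hh0
  unfold Shp
  rw [h4, h2, h1, h3]
  simp

theorem Pm_var (C0 : ℝ) (hC : 0 ≤ C0) (N : ℕ) (a : Fin N) :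
    Pm C0 (fun x : Fin N → Bool => if x a then -1 else 1) := by
  intro _
  obtain ⟨h1, -⟩ := Cls_var N a
  refine ⟨{a}, Finset.singleton_ne_empty a, by rw [h1]; norm_num, ?_⟩
  rw [h1, Cls_var_inf]
  norm_num
  exact hC

theorem Pm_const (C0 : ℝ) (N : ℕ) (c : ℝ) (hc : c = 1 ∨ c = -1) : Pm C0 (fun _ : Fin N → Bool => c) := by
  intro h
  exfalso
  rw [(Cls_const N c).2] at h
  rcases hc with h1 | h1 <;> rw [h1] at h <;> norm_num at h

/-- **Decision trees of rank at most `w - 2` are in the class for the entropy.** -/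
theorem RH_tree (w : ℕ) (s C0 : ℝ) (N : ℕ) (T : Tree (Fin N)) (hT : T.rank + 2 ≤ w) :
    RH w s C0 (fun x => if T.eval x then -1 else 1) := by
  refine tree_mem (Cl := RH w s C0) ?_ ?_ ?_ T hT
  · intro P u hP hd hu n σ v x0 o hr
    exact RH.prog P u hP hd hu n σ v x0 o hr
  · intro a
    refine RH.leaf _ ?_ (Shp_var C0 N a)
    intro x
    cases x a <;> simp
  · have e : (fun _ : Fin N → Bool => if false = true then (-1 : ℝ) else 1) = fun _ => 1 := by
      funext x; simp
    rw [e]
    exact RH.leaf _ (fun _ => Or.inl rfl) (Shp_const C0 N 1 (Or.inl rfl))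

/-- **Decision trees of rank at most `w - 2` are in the class for the min-entropy.** -/
theorem UH_tree (w : ℕ) (s C0 : ℝ) (hC : 0 ≤ C0) (N : ℕ) (T : Tree (Fin N)) (hT : T.rank + 2 ≤ w) :
    UH w s C0 (fun x => if T.eval x then -1 else 1) := by
  refine tree_mem (Cl := UH w s C0) ?_ ?_ ?_ T hT
  · intro P u hP hd hu n σ v x0 o hr
    exact UH.prog P u hP hd hu n σ v x0 o hr
  · intro a
    refine UH.leaf _ ?_ (Pm_var C0 hC N a)
    intro x
    cases x a <;> simp
  · have e : (fun _ : Fin N → Bool => if false = true then (-1 : ℝ) else 1) = fun _ => 1 := by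
      funext x; simp
    rw [e]
    exact UH.leaf _ (fun _ => Or.inl rfl) (Pm_const C0 N 1 (Or.inl rfl))

/-- gate form: a decision tree of rank at most `w - 2` which queries members of the class with disjoint sets of variables -/
theorem RH_tree_gate (w : ℕ) (s C0 : ℝ) (N : ℕ) (P : ℕ → Finset (Fin N)) (u : ℕ → (Fin N → Bool) → ℝ)
    (hP : ∀ i j, i ≠ j → Disjoint (P i) (P j)) (hd : ∀ i, Dp (P i) (u i)) (hu : ∀ i, RH w s C0 (u i))
    (T : Tree ℕ) (hT : T.rank + 2 ≤ w) :
    RH w s C0 (fun x => if T.eval (fun i => decide (u i x = -1)) then -1 else 1) :=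
  tree_gate (fun P u hP hd hu n σ v x0 o hr => RH.prog P u hP hd hu n σ v x0 o hr) P u hP hd hu T hT

end Pool.Agent.MP3145b1.RK
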