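import Pool.Agent.Lib.MP_3145b1_co.RC.SpecF

/-!
# MP_3145b1_co: a decision tree of rank `r` is computed by a read-once branching program of width `r + 2`

The light child of a node (rank at most `r - 1`) runs first, in the slots below, and the heavy child waits
in its slot; the slots `0`, `1` are the outputs. States which wait read fresh indices.
-/

set_option autoImplicit false

namespace Pool.Agent.MP3145b1.RK

open Finset Pool.Agent.MP3145b1 Pool.Agent.MP3145b1.RC

/-- Decision trees with queries in `α`: a leaf carries its output; `node i l r` queries `i` and continues with `l`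
if the answer is `false` and with `r` if it is `true`. -/
inductive Tree (α : Type) : Type
  | leaf : Bool → Tree α
  | node : α → Tree α → Tree α → Tree α

/-- the output of the tree on the input `y` -/
def Tree.eval {α : Type} (y : α → Bool) : Tree α → Bool
  | .leaf b => b
  | .node i l r => if y i = true then r.eval y else l.eval y

/-- the rank (Ehrenfeucht, Haussler): a leaf has rank `0`; an inner node has the larger of the ranks of its two
subtrees if they are different, and one more than their rank if they are equal -/
def Tree.rank {α : Type} : Tree α → ℕ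
  | .leaf _ => 0
  | .node _ l r => if l.rank = r.rank then l.rank + 1 else max l.rank r.rank

/-- renaming of the queries -/
def Tree.map {α β : Type} (f : α → β) : Tree α → Tree β
  | .leaf b => .leaf b
  | .node i l r => .node (f i) (l.map f) (r.map f)

theorem Tree.rank_map {α β : Type} (f : α → β) : ∀ T : Tree α, (T.map f).rank = T.rank
  | .leaf _ => rfl
  | .node i l r => by
      simp only [Tree.map, Tree.rank, Tree.rank_map f l, Tree.rank_map f r]

theorem Tree.eval_map {α β : Type} (f : α → β) (y : β → Bool) :
    ∀ T : Tree α, (T.map f).eval y = T.eval (fun i => y (f i))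
  | .leaf _ => rfl
  | .node i l r => by
      simp only [Tree.map, Tree.eval, Tree.eval_map f y l, Tree.eval_map f y r]

/-- a number larger than all queries -/
def Tree.bd : Tree ℕ → ℕ
  | .leaf _ => 0
  | .node i l r => max (i + 1) (max l.bd r.bd)

/-- functions computed by trees of rank at most `r` with no query twice on a path and none in `K` -/
inductive Rk (c0 : ℕ) : ℕ → Finset ℕ → ((ℕ → Bool) → Bool) → Prop
  | const (r : ℕ) (K : Finset ℕ) (b : Bool) : Rk c0 r K (fun _ => b)
  | node (r : ℕ) (K : Finset ℕ) (i : ℕ) (β : Bool) (F G : (ℕ → Bool) → Bool) (hi : i ∉ K) (hc : i < c0)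
      (hF : Rk c0 r (insert i K) F) (hG : Rk c0 (r + 1) (insert i K) G) :
      Rk c0 (r + 1) K (fun y => if y i = β then F y else G y)

theorem Rk.mono {c0 r : ℕ} {K : Finset ℕ} {F : (ℕ → Bool) → Bool} (h : Rk c0 r K F) :
    ∀ r', r ≤ r' → Rk c0 r' K F := by
  induction h with
  | const r K b => exact fun r' _ => Rk.const r' K b
  | node r K i β F G hi hc hF hG ihF ihG =>
    intro r' hr
    obtain ⟨r'', rfl⟩ : ∃ r'', r' = r'' + 1 := ⟨r' - 1, by omega⟩
    exact Rk.node r'' K i β F G hi hc (ihF r'' (by omega)) (ihG (r'' + 1) hr)

/-- `κ` on `K`, `y` elsewhere -/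
def ov (K : Finset ℕ) (κ y : ℕ → Bool) : ℕ → Bool := fun i => if i ∈ K then κ i else y i

theorem ov_insert (K : Finset ℕ) (κ y : ℕ → Bool) (i : ℕ) (b : Bool) (hi : i ∉ K) (hy : y i = b) :
    ov (insert i K) (Function.update κ i b) y = ov K κ y := by
  funext j
  unfold ov
  by_cases hj : j = i
  · subst hj
    simp [hi, hy]
  · simp [hj, Function.update_of_ne hj]

theorem prune (c0 : ℕ) : ∀ (T : Tree ℕ) (K : Finset ℕ) (κ : ℕ → Bool), T.bd ≤ c0 →
    Rk c0 T.rank K (fun y => T.eval (ov K κ y))
  | .leaf b, K, κ, _ => Rk.const 0 K b
  | .node i l r, K, κ, hb => by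
      have hb1 : i + 1 ≤ c0 ∧ l.bd ≤ c0 ∧ r.bd ≤ c0 := by
        simp only [Tree.bd] at hb
        omega
      by_cases hi : i ∈ K
      · cases hκ : κ i
        · have h1 := (prune c0 l K κ hb1.2.1).mono (Tree.node i l r).rank (by
            simp only [Tree.rank]; split_ifs <;> omega)
          have h2 : (fun y => (Tree.node i l r).eval (ov K κ y)) = fun y => l.eval (ov K κ y) := by
            funext y
            simp [Tree.eval, ov, hi, hκ]
          rw [h2]; exact h1
        · have h1 := (prune c0 r K κ hb1.2.2).mono (Tree.node i l r).rank (by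
            simp only [Tree.rank]; split_ifs <;> omega)
          have h2 : (fun y => (Tree.node i l r).eval (ov K κ y)) = fun y => r.eval (ov K κ y) := by
            funext y
            simp [Tree.eval, ov, hi, hκ]
          rw [h2]; exact h1
      · have hl := prune c0 l (insert i K) (Function.update κ i false) hb1.2.1
        have hr := prune c0 r (insert i K) (Function.update κ i true) hb1.2.2
        obtain ⟨R, hR, hor⟩ : ∃ R, (Tree.node i l r).rank = R + 1 ∧
            ((l.rank ≤ R ∧ r.rank ≤ R + 1) ∨ (r.rank ≤ R ∧ l.rank ≤ R + 1)) := by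
          refine ⟨(Tree.node i l r).rank - 1, ?_, ?_⟩
          · simp only [Tree.rank]; split_ifs <;> omega
          · simp only [Tree.rank]; split_ifs <;> omega
        rw [hR]
        rcases hor with ⟨h1, h2⟩ | ⟨h1, h2⟩
        · have h3 : (fun y => (Tree.node i l r).eval (ov K κ y)) = fun y => if y i = false then
              l.eval (ov (insert i K) (Function.update κ i false) y) else
              r.eval (ov (insert i K) (Function.update κ i true) y) := by
            funext y
            cases hy : y i
            · rw [ov_insert K κ y i false hi hy]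
              simp [Tree.eval, ov, hi, hy]
            · rw [ov_insert K κ y i true hi hy]
              simp [Tree.eval, ov, hi, hy]
          rw [h3]
          exact Rk.node R K i false _ _ hi (by omega) (hl.mono R h1) (hr.mono (R + 1) h2)
        · have h3 : (fun y => (Tree.node i l r).eval (ov K κ y)) = fun y => if y i = true then
              r.eval (ov (insert i K) (Function.update κ i true) y) else
              l.eval (ov (insert i K) (Function.update κ i false) y) := by
            funext y
            cases hy : y i
            · rw [ov_insert K κ y i false hi hy]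
              simp [Tree.eval, ov, hi, hy]
            · rw [ov_insert K κ y i true hi hy]
              simp [Tree.eval, ov, hi, hy]
          rw [h3]
          exact Rk.node R K i true _ _ hi (by omega) (hr.mono R h1) (hl.mono (R + 1) h2)

/-- one level of a program: the index read and the next state -/
abbrev Lv (w : ℕ) := (Fin w → ℕ) × (Fin w → Bool → Fin w)

/-- the final state on the input `y` -/
def runL {w : ℕ} (y : ℕ → Bool) : List (Lv w) → Fin w → Fin w
  | [], x => x
  | l :: L, x => runL y L (l.2 x (y (l.1 x)))

/-- on every path from `x` the indices read are distinct and not in `K`, and at the end `Φ` holds for the set `K` with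
the indices read added and for the last state -/
def Cn {w : ℕ} : List (Lv w) → Set ℕ → Fin w → (Set ℕ → Fin w → Prop) → Prop
  | [], K, x, Φ => Φ K x
  | l :: L, K, x, Φ => l.1 x ∉ K ∧ ∀ b, Cn L (insert (l.1 x) K) (l.2 x b) Φ

theorem runL_append {w : ℕ} (y : ℕ → Bool) : ∀ (L L' : List (Lv w)) (x : Fin w),
    runL y (L ++ L') x = runL y L' (runL y L x)
  | [], _, _ => rfl
  | l :: L, L', x => by
      simp only [List.cons_append, runL]
      exact runL_append y L L' _

theorem Cn_append {w : ℕ} (Φ : Set ℕ → Fin w → Prop) : ∀ (L L' : List (Lv w)) (K : Set ℕ) (x : Fin w),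
    Cn L K x (fun K' x' => Cn L' K' x' Φ) → Cn (L ++ L') K x Φ
  | [], _, _, _, h => h
  | l :: L, L', K, x, h => by
      simp only [List.cons_append, Cn] at h ⊢
      exact ⟨h.1, fun b => Cn_append Φ L L' _ _ (h.2 b)⟩

theorem Cn_mono {w : ℕ} {Φ Ψ : Set ℕ → Fin w → Prop} (hΦ : ∀ K x, Φ K x → Ψ K x) :
    ∀ (L : List (Lv w)) (K : Set ℕ) (x : Fin w), Cn L K x Φ → Cn L K x Ψ
  | [], _, _, h => hΦ _ _ h
  | l :: L, K, x, h => by
      simp only [Cn] at h ⊢
      exact ⟨h.1, fun b => Cn_mono hΦ L _ _ (h.2 b)⟩

theorem seg {w : ℕ} (c0 : ℕ) (z0 z1 : Fin w) (hz0 : z0.val = 0) (hz1 : z1.val = 1) {r : ℕ} {K : Finset ℕ}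
    {F : (ℕ → Bool) → Bool} (h : Rk c0 r K F) : (∀ k ∈ K, k < c0) → ∀ (a : Fin w), r + 1 ≤ a.val → ∀ c, c0 ≤ c →
    ∃ (L : List (Lv w)) (st : Fin w), (st = a ∨ st.val ≤ 1) ∧
      (∀ y, runL y L st = if F y then z1 else z0) ∧
      (∀ y x, (x.val ≤ 1 ∨ a.val < x.val) → runL y L x = x) ∧
      (∀ K' : Set ℕ, (∀ k ∈ K', k ∈ K ∨ (c0 ≤ k ∧ k < c)) →
        Cn L K' st (fun K'' x => x.val ≤ 1 ∧ ∀ k ∈ K'', k < c + L.length)) ∧
      (∀ K' : Set ℕ, (∀ k ∈ K', k < c) → ∀ x, (x.val ≤ 1 ∨ a.val < x.val) →
        Cn L K' x (fun K'' x' => x' = x ∧ ∀ k ∈ K'', k ∈ K' ∨ (c ≤ k ∧ k < c + L.length))) := by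
  induction h with
  | const r K b =>
    intro hK a ha c hc
    refine ⟨[], if b then z1 else z0, Or.inr ?_, fun y => rfl, fun y x _ => rfl, ?_, ?_⟩
    · cases b <;> simp [hz0, hz1]
    · intro K' hK'
      refine ⟨?_, ?_⟩
      · cases b <;> simp [hz0, hz1]
      · intro k hk
        rcases hK' k hk with h1 | h1
        · have := hK k h1
          simp only [List.length_nil]; omega
        · simp only [List.length_nil]; omega
    · intro K' _ x _
      exact ⟨rfl, fun k hk => Or.inl hk⟩
  | node r K i β F G hi hc0 hF hG ihF ihG =>
    intro hK a ha c hc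
    have hK1 : ∀ k ∈ insert i K, k < c0 := by
      intro k hk
      rcases Finset.mem_insert.1 hk with h1 | h1
      · omega
      · exact hK k h1
    have ha' : a.val - 1 < w := lt_of_le_of_lt (Nat.sub_le _ _) a.isLt
    obtain ⟨LF, stF, hF1, hF2, hF3, hF4, hF5⟩ := ihF hK1 ⟨a.val - 1, ha'⟩ (by simp only; omega) (c + 1) (by omega)
    obtain ⟨LG, stG, hG1, hG2, hG3, hG4, hG5⟩ := ihG hK1 a ha (c + 1 + LF.length) (by omega)
    simp only at hF1 hF3 hF5
    have hzz : ∀ b : Bool, (if b = true then z1 else z0).val ≤ 1 := by
      intro b; cases b <;> simp [hz0, hz1]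
    have hstG : stG.val ≤ 1 ∨ a.val - 1 < stG.val := by
      rcases hG1 with h1 | h1
      · right; rw [h1]; omega
      · left; exact h1
    refine ⟨(fun x => if x = a then i else c, fun x b => if x = a then (if b = β then stF else stG) else x) ::
      (LF ++ LG), a, Or.inl rfl, ?_, ?_, ?_, ?_⟩
    · intro y
      simp only [runL, if_true, runL_append]
      by_cases hy : y i = β
      · simp only [hy, if_true]
        rw [hF2, hG3 _ _ (Or.inl (hzz _))]
      · simp only [hy, if_false]
        rw [hF3 _ _ hstG, hG2]
    · intro y x hx
      have hxa : x ≠ a := by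
        intro h1; subst h1; omega
      simp only [runL, hxa, if_false, runL_append]
      rw [hF3 _ _ (by omega), hG3 _ _ hx]
    · intro K' hK'
      simp only [Cn, if_true]
      refine ⟨?_, ?_⟩
      · intro h1
        rcases hK' i h1 with h2 | h2
        · exact hi h2
        · omega
      · intro b
        by_cases hb : b = β
        · simp only [hb, if_true]
          refine Cn_append _ _ _ _ _ (Cn_mono ?_ _ _ _ (hF4 (insert i K') ?_))
          · rintro K'' x ⟨h1, h2⟩
            refine Cn_mono ?_ _ _ _ (hG5 K'' (fun k hk => by have := h2 k hk; omega) x (Or.inl h1))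
            rintro K3 x' ⟨h3, h4⟩
            refine ⟨by rw [h3]; exact h1, fun k hk => ?_⟩
            simp only [List.length_cons, List.length_append]
            rcases h4 k hk with h5 | h5
            · have := h2 k h5; omega
            · omega
          · intro k hk
            rcases hk with h1 | h1
            · left; rw [h1]; exact Finset.mem_insert_self _ _
            · rcases hK' k h1 with h2 | h2
              · left; exact Finset.mem_insert_of_mem h2
              · right; omega
        · simp only [hb, if_false]
          refine Cn_append _ _ _ _ _ (Cn_mono ?_ _ _ _ (hF5 (insert i K') ?_ stG hstG))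
          · rintro K'' x ⟨h1, h2⟩
            rw [h1]
            refine Cn_mono ?_ _ _ _ (hG4 K'' ?_)
            · rintro K3 x' ⟨h3, h4⟩
              refine ⟨h3, fun k hk => ?_⟩
              have := h4 k hk
              simp only [List.length_cons, List.length_append]
              omega
            · intro k hk
              rcases h2 k hk with h3 | h3
              · rcases h3 with h4 | h4
                · left; rw [h4]; exact Finset.mem_insert_self _ _
                · rcases hK' k h4 with h5 | h5
                  · left; exact Finset.mem_insert_of_mem h5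
                  · right; omega
              · right; omega
          · intro k hk
            rcases hk with h1 | h1
            · omega
            · rcases hK' k h1 with h2 | h2
              · have := hK k h2; omega
              · omega
    · intro K' hK' x hx
      have hxa : x ≠ a := by
        intro h1; subst h1; omega
      simp only [Cn, hxa, if_false]
      refine ⟨fun h1 => by have := hK' c h1; omega, fun _ => ?_⟩
      refine Cn_append _ _ _ _ _ (Cn_mono ?_ _ _ _ (hF5 (insert c K') ?_ x (by omega)))
      · rintro K'' x' ⟨h1, h2⟩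
        rw [h1]
        refine Cn_mono ?_ _ _ _ (hG5 K'' ?_ x hx)
        · rintro K3 x'' ⟨h3, h4⟩
          refine ⟨h3, fun k hk => ?_⟩
          simp only [List.length_cons, List.length_append]
          rcases h4 k hk with h5 | h5
          · rcases h2 k h5 with h6 | h6
            · rcases h6 with h7 | h7
              · right; omega
              · left; exact h7
            · right; omega
          · right; omega
        · intro k hk
          rcases h2 k hk with h6 | h6
          · rcases h6 with h7 | h7
            · omega
            · have := hK' k h7; omega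
          · omega
      · intro k hk
        rcases hk with h1 | h1
        · omega
        · have := hK' k h1; omega

/-- the transitions of a list of levels -/
def sL {w : ℕ} (L : List (Lv w)) (t : ℕ) (x : Fin w) (b : Bool) : Fin w :=
  match L[t]? with
  | some l => l.2 x b
  | none => x

/-- the indices read by a list of levels -/
def vL {w : ℕ} (L : List (Lv w)) (t : ℕ) (x : Fin w) : ℕ :=
  match L[t]? with
  | some l => l.1 x
  | none => 0

theorem run_shift {w : ℕ} (s : ℕ → Fin w → Bool → Fin w) (v : ℕ → Fin w → ℕ) (x0 : Fin w) (y : ℕ → Bool) :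
    ∀ i, run s v x0 y (i + 1) =
      run (fun t => s (t + 1)) (fun t => v (t + 1)) (s 0 x0 (y (v 0 x0))) y i
  | 0 => rfl
  | i + 1 => by
      rw [run, run_shift s v x0 y i]
      rfl

theorem path_shift {w : ℕ} (s : ℕ → Fin w → Bool → Fin w) (x0 : Fin w) (b : ℕ → Bool) :
    ∀ i, path s x0 b (i + 1) = path (fun t => s (t + 1)) (s 0 x0 (b 0)) (fun t => b (t + 1)) i
  | 0 => rfl
  | i + 1 => by
      rw [path, path_shift s x0 b i]
      rfl

theorem run_list {w : ℕ} (y : ℕ → Bool) : ∀ (L : List (Lv w)) (x : Fin w),
    run (sL L) (vL L) x y L.length = runL y L x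
  | [], _ => rfl
  | l :: L, x => by
      rw [List.length_cons, run_shift]
      exact run_list y L _

theorem Cn_path {w : ℕ} (Φ : Set ℕ → Fin w → Prop) : ∀ (L : List (Lv w)) (K : Set ℕ) (x : Fin w), Cn L K x Φ →
    ∀ b : ℕ → Bool, (∀ j, j < L.length → vL L j (path (sL L) x b j) ∉ K) ∧
      ∀ i j, i < j → j < L.length → vL L i (path (sL L) x b i) ≠ vL L j (path (sL L) x b j)
  | [], _, _, _ => fun _ => ⟨fun j hj => absurd hj (by simp), fun i j _ hj => absurd hj (by simp)⟩
  | l :: L, K, x, h => by
      intro b
      simp only [Cn] at h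
      have ih := Cn_path Φ L (insert (l.1 x) K) (l.2 x (b 0)) (h.2 (b 0)) (fun t => b (t + 1))
      have hp : ∀ j, path (sL (l :: L)) x b (j + 1) = path (sL L) (l.2 x (b 0)) (fun t => b (t + 1)) j := by
        intro j
        rw [path_shift]
        rfl
      refine ⟨?_, ?_⟩
      · intro j hj
        cases j with
        | zero => exact h.1
        | succ j =>
          rw [hp]
          have h1 := ih.1 j (by simpa using hj)
          exact fun h2 => h1 (Or.inr h2)
      · intro i j hij hj
        cases j with
        | zero => omega
        | succ j =>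
          rw [hp]
          have hj' : j < L.length := by simpa using hj
          cases i with
          | zero =>
            intro h2
            exact ih.1 j hj' (Or.inl h2.symm)
          | succ i =>
            rw [hp]
            exact ih.2 i j (by omega) hj'

/-- **A decision tree of rank at most `w - 2` is computed by a read-once branching program of width `w`.** -/
theorem tree_prog (w : ℕ) (T : Tree ℕ) (hw : T.rank + 2 ≤ w) :
    ∃ (n : ℕ) (s : ℕ → Fin w → Bool → Fin w) (v : ℕ → Fin w → ℕ) (x0 : Fin w) (o : Fin w → Bool),
      ReadOnce s v n x0 ∧ ∀ y : ℕ → Bool, T.eval y = o (run s v x0 y n) := by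
  have h0 : Rk T.bd T.rank ∅ (fun y => T.eval (ov ∅ (fun _ => false) y)) := prune T.bd T ∅ _ le_rfl
  have hw0 : 0 < w := by omega
  have hw1 : 1 < w := by omega
  obtain ⟨L, st, -, h2, -, h4, -⟩ := seg T.bd (⟨0, hw0⟩ : Fin w) ⟨1, hw1⟩ rfl rfl h0 (by simp)
    ⟨T.rank + 1, by omega⟩ le_rfl T.bd le_rfl
  refine ⟨L.length, sL L, vL L, st, fun x => decide (x.val = 1), ?_, ?_⟩
  · intro b i j hij hj
    exact (Cn_path _ L ∅ st (h4 ∅ (fun k hk => absurd hk (by simp))) b).2 i j hij hj
  · intro y
    have h5 : ov ∅ (fun _ => false) y = y := by
      funext i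
      simp [ov]
    have h6 := h2 y
    rw [h5] at h6
    simp only [run_list, h6]
    cases T.eval y <;> simp

end Pool.Agent.MP3145b1.RK
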